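import Pool.Agent.H4.Loop.Defs

/-!
# The end game of case O1 (helper25, MP_52f71e)

If every commutator `s = x \ (T_u x)` of a simple automorphic loop lies in the middle nucleus, the
loop is associative or commutative.
-/

set_option autoImplicit false

namespace ALoop

open Equiv

variable {Q : Type*}

/-- `s` is in the middle nucleus -/
def MNuc (L : Q → Perm Q) (s : Q) : Prop := ∀ v, L (L v s) = L v * L s

namespace AL

variable {G : Subgroup (Perm Q)} {L : Q → Perm Q} {J : Perm Q} {e : Q}

private theorem inv_app (p : Perm Q) (x : Q) : p (p⁻¹ x) = x := p.apply_symm_apply x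

private theorem inv_app' (p : Perm Q) (x : Q) : p⁻¹ (p x) = x := p.symm_apply_apply x

theorem L_e_one (h : AL G L J e) : L e = 1 := by
  have h1 : ∀ x, L e x = x := by
    intro x
    have h2 := h.aaip (J x) e
    rw [h.Le, h.JJ, h.Je] at h2
    exact h2.symm
  ext x
  simp [h1]

/-- the product `L x y` in terms of the right translation -/
theorem L_eq_J (h : AL G L J e) (x y : Q) : L x y = J (L (J y) (J x)) := by
  rw [← h.aaip, h.JJ]

/-- right division -/
theorem exists_rdiv (h : AL G L J e) (u w : Q) : ∃ t, L t u = w := by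
  refine ⟨J ((L (J u))⁻¹ (J w)), ?_⟩
  rw [h.L_eq_J, h.JJ, inv_app, h.JJ]

theorem mNuc_map (h : AL G L J e) {k : Perm Q} (hk : k ∈ G) (hke : k e = e) {s : Q}
    (hs : MNuc L s) : MNuc L (k s) := by
  intro v
  have h1 : L v = k * L (k⁻¹ v) * k⁻¹ := by rw [h.equi k hk hke, inv_app]
  have h2 : L (k s) = k * L s * k⁻¹ := (h.equi k hk hke s).symm
  have h3 : L v (k s) = k (L (k⁻¹ v) s) := by
    rw [h1]
    simp only [Perm.mul_apply, inv_app']
  rw [h3, ← h.equi k hk hke, hs, h2, h1]
  group

theorem mNuc_inv (h : AL G L J e) {s : Q} (hs : MNuc L s) : MNuc L ((L s)⁻¹ e) := by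
  have h0 : ∀ v, L (L v ((L s)⁻¹ e)) = L v * (L s)⁻¹ := by
    intro v
    obtain ⟨w, hw⟩ := h.exists_rdiv s v
    have h1 := hs w
    rw [hw] at h1
    have h2 : L w = L v * (L s)⁻¹ := by rw [h1]; group
    have h3 : L v ((L s)⁻¹ e) = w := by
      have h4 := congrArg (fun p : Perm Q => p e) h2
      simp only [Perm.mul_apply] at h4
      rw [h.Le] at h4
      exact h4.symm
    rw [h3, h2]
  intro v
  have h5 := h0 e
  rw [h.L_e_one, one_mul, Perm.one_apply] at h5
  rw [h0, h5]

theorem mNuc_mul {s t : Q} (hs : MNuc L s) (ht : MNuc L t) : MNuc L (L s t) := by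
  intro v
  have h1 : L v (L s t) = L (L v s) t := by rw [hs]; rfl
  rw [h1, ht, hs, ht, mul_assoc]

theorem assoc_of_mNuc (h : AL G L J e) {s : Q} (hs : MNuc L s) (hse : s ≠ e) : Assoc L := by
  have he : MNuc L e := by
    intro v
    rw [h.L_e_one, mul_one, h.Le]
  have key := h.prim (fun a b => MNuc L ((L a)⁻¹ b)) ?_ ?_
  · rcases key with h1 | h1
    · exfalso
      apply hse
      have h2 := h1 e s (by rw [h.L_e_one]; simpa using hs)
      exact h2.symm
    · intro x y z
      have h2 : MNuc L y := by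
        have h3 := h1 e y
        rw [h.L_e_one] at h3
        simpa using h3
      rw [h2]
      rfl
  · refine ⟨?_, ?_, ?_⟩
    · intro a
      have h1 : (L a)⁻¹ a = e := by rw [Perm.inv_eq_iff_eq, h.Le]
      rw [h1]
      exact he
    · intro a b hab
      have h1 : L b = L a * L ((L a)⁻¹ b) := by
        rw [← hab a, inv_app]
      have h2 : (L b)⁻¹ a = (L ((L a)⁻¹ b))⁻¹ e := by
        rw [h1, mul_inv_rev, Perm.mul_apply]
        congr 1
        rw [Perm.inv_eq_iff_eq, h.Le]
      rw [h2]
      exact h.mNuc_inv hab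
    · intro a b c hab hbc
      have h1 : L b = L a * L ((L a)⁻¹ b) := by
        rw [← hab a, inv_app]
      have h2 : (L a)⁻¹ c = L ((L a)⁻¹ b) ((L b)⁻¹ c) := by
        rw [Perm.inv_eq_iff_eq, ← Perm.mul_apply, ← h1, inv_app]
      rw [h2]
      exact mNuc_mul hab hbc
  · intro g hg a b hab
    have h1 : (L (g a))⁻¹ * g * L a ∈ G := G.mul_mem (G.mul_mem (G.inv_mem (h.memL _)) hg) (h.memL _)
    have h2 : ((L (g a))⁻¹ * g * L a) e = e := by
      simp only [Perm.mul_apply]
      rw [h.Le, Perm.inv_eq_iff_eq, h.Le]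
    have h3 := h.mNuc_map h1 h2 hab
    have h4 : ((L (g a))⁻¹ * g * L a) ((L a)⁻¹ b) = (L (g a))⁻¹ (g b) := by
      simp only [Perm.mul_apply, inv_app]
    rw [h4] at h3
    exact h3

/-- END GAME of case O1: if every commutator `s`, `x s = t`, `t u = u x`, is in the middle nucleus,
the loop is associative or commutative. -/
theorem assoc_or_comm (h : AL G L J e)
    (nm : ∀ u x t s, L t u = L u x → L x s = t → ∀ v z, L (L v s) z = L v (L s z)) :
    Assoc L ∨ ∀ x y, L x y = L y x := by
  by_cases hc : ∃ s, MNuc L s ∧ s ≠ e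
  · obtain ⟨s, hs, hse⟩ := hc
    exact Or.inl (h.assoc_of_mNuc hs hse)
  · right
    intro x u
    obtain ⟨t, ht⟩ := h.exists_rdiv u (L u x)
    have hs : MNuc L ((L x)⁻¹ t) := by
      intro v
      ext z
      exact nm u x t ((L x)⁻¹ t) ht (inv_app _ _) v z
    have h1 : (L x)⁻¹ t = e := by
      by_contra h2
      exact hc ⟨_, hs, h2⟩
    rw [Perm.inv_eq_iff_eq, h.Le] at h1
    rw [h1] at ht
    exact ht

end AL

end ALoop
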